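import Mathlib
import Pool.Agent.U236.BR6

/-!
# Lehmer's problem for bounded rank perturbations of contractions

Let `A` and `C` be complex `n × n` matrices with integral characteristic polynomials such that
`rank (A - C) ≤ r` and, in some Euclidean norm on `ℂ ^ n`, `C` is a contraction (for instance a
unitary matrix) and `A - C` has norm at most `K`. Then the Mahler measure of the characteristic
polynomial of `A` is `1` or at least `μ(r, K) > 1`, whatever the size `n` is. If the
characteristic polynomial of `A` is irreducible and its Mahler measure `M` exceeds `1`, then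
`log M ≥ c / (1 + r log (2 + r + K)) ^ 3` with an absolute constant `c > 0`.

No positivity and no symmetry is assumed. For instance `A` and `C` may be endomorphisms of a lattice
of any rank, `C` of finite order and `A = C` on a sublattice of corank `r`: the bound
depends on `r` and on how far `A` moves a Euclidean norm which is invariant under `C` (in the symmetric
space of `SL_n(ℝ)`: on the distance by which `A` moves a fixed point of `C`).

The case `r = 1` in terms of polynomials: let `f`, `g` be monic integer polynomials of the same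
degree, all zeros of `g` simple and in the closed unit disc, such that the partial fraction expansion
`f / g = 1 + ∑ a_z / (X - z)` satisfies `∑ |a_z| ≤ K`. Then `M(f) = 1` or `M(f) ≥ μ(K)`.

Method. `det (1 - ζ A) / det (1 - ζ C)` is a determinant of size `r` whose entries are matrix
coefficients of the resolvent of `C`. By polarization they are sums of functions with positive real
part in the unit disc; Kolmogorov's inequality for the square root of such functions bounds the
mean of `log⁺` of the quotient by `11 r log (2 + r + K)`, on all circles of radius less than one.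
This bounds the height of the pair of the coprime parts of the two characteristic polynomials, and
the theorems of the starting files for coprime pairs of bounded height apply.
-/

set_option autoImplicit false

namespace Pool.Agent.Results.MP_7ab245_nt.BoundedRankPerturbations

open Polynomial Matrix

noncomputable section

/-- The Euclidean norm of `S x`; for invertible `S` these are the Euclidean (Hilbert space)
norms on `ℂ ^ n`. -/
def formNorm {n : ℕ} (S : Matrix (Fin n) (Fin n) ℂ) (x : Fin n → ℂ) : ℝ :=
  √(∑ i, ‖(S *ᵥ x) i‖ ^ 2)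

/-- The characteristic polynomial has integer coefficients. -/
def Integral {n : ℕ} (A : Matrix (Fin n) (Fin n) ℂ) : Prop :=
  ∃ P : ℤ[X], P.map (Int.castRingHom ℂ) = A.charpoly

/-- `A` and `C` have integral characteristic polynomials, `rank (A - C) ≤ r`, and in some
Euclidean norm `C` is a contraction and `A - C` has norm at most `K`. -/
def Near {n : ℕ} (r : ℕ) (K : ℝ) (A C : Matrix (Fin n) (Fin n) ℂ) : Prop :=
  Integral A ∧ Integral C ∧ (A - C).rank ≤ r ∧
  ∃ S : Matrix (Fin n) (Fin n) ℂ, S.det ≠ 0 ∧
    (∀ x : Fin n → ℂ, formNorm S (C *ᵥ x) ≤ formNorm S x) ∧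
    ∀ x : Fin n → ℂ, formNorm S ((A - C) *ᵥ x) ≤ K * formNorm S x

/-- `f` and `g` are monic of the same degree, the zeros of `g` are simple and lie in the closed
unit disc, and the sum of the absolute values of the residues `f(z) / g'(z)` is at most `K`. -/
def SmallResidues (K : ℝ) (f g : ℤ[X]) : Prop :=
  f.Monic ∧ g.Monic ∧ f.natDegree = g.natDegree ∧ (g.map (Int.castRingHom ℂ)).Separable ∧
  (∀ z : ℂ, (g.map (Int.castRingHom ℂ)).eval z = 0 → ‖z‖ ≤ 1) ∧
  ∑ z ∈ (g.map (Int.castRingHom ℂ)).roots.toFinset, ‖(f.map (Int.castRingHom ℂ)).eval z‖ /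
    ‖(derivative (g.map (Int.castRingHom ℂ))).eval z‖ ≤ K

theorem result :
    (∀ (r : ℕ) (K : ℝ), 0 ≤ K → ∃ μ : ℝ, 1 < μ ∧
      ∀ (n : ℕ) (A C : Matrix (Fin n) (Fin n) ℂ), Near r K A C →
        A.charpoly.mahlerMeasure = 1 ∨ μ ≤ A.charpoly.mahlerMeasure) ∧
    (∃ c : ℝ, 0 < c ∧ ∀ (r : ℕ) (K : ℝ), 0 ≤ K →
      ∀ (n : ℕ) (A C : Matrix (Fin n) (Fin n) ℂ), Near r K A C →
      (∃ P : ℤ[X], P.map (Int.castRingHom ℂ) = A.charpoly ∧ Irreducible P) →
      1 < A.charpoly.mahlerMeasure →
      c / (1 + r * Real.log (2 + r + K)) ^ 3 ≤ Real.log A.charpoly.mahlerMeasure) ∧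
    (∀ K : ℝ, 0 ≤ K → ∃ μ : ℝ, 1 < μ ∧ ∀ f g : ℤ[X], SmallResidues K f g →
      (f.map (Int.castRingHom ℂ)).mahlerMeasure = 1 ∨
        μ ≤ (f.map (Int.castRingHom ℂ)).mahlerMeasure) := by
  refine ⟨fun r K hK => Pool.Agent.U236.BR.gap_near r K hK, Pool.Agent.U236.BR.irr_near,
    fun K hK => ?_⟩
  obtain ⟨μ, hμ, h⟩ := Pool.Agent.U236.BR.gap_near 1 K hK
  refine ⟨μ, hμ, ?_⟩
  rintro f g ⟨hf, hg, hd, hs, hz, hr⟩
  obtain ⟨A, C, hN, hA⟩ := Pool.Agent.U236.BR.frac_near hf hg hd hs hz hr
  rw [← hA]
  exact h _ A C hN

end

end Pool.Agent.Results.MP_7ab245_nt.BoundedRankPerturbations
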