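import Mathlib
import Pool.Agent.Q262.RL.Key5

/-!
# Lehmer's problem and number fields with a large subfield

Fix a prime number `p` and a power `q` of `p`. Let `F` be a number field (Galois over `ℚ` or not) with
an automorphism `τ` and a set `T` of prime ideals above `p`, such that `x ^ q ≡ τ x` modulo `P` for all
the integers `x` of `F` and all `P` in `T`, and such that the sum of the local degrees of the members
of `T` is at least `[F : ℚ] / B`. For `τ = 1` this means that a positive proportion of the prime ideals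
above `p`, counted with their local degrees, have bounded residue degrees; their ramification is
arbitrary. We prove Lehmer's inequality `M(f) ≥ 1 + ε` for the irreducible integer polynomials `f` with
`M(f) > 1` such that an extension `K` of degree at most `C` of the field of a zero of `f` contains such
a field `F` with `[K : F] ≤ C [F : ℚ] ^ κ`, where `ε > 0` depends on `p`, `q`, `B`, `C`, `κ` only. We
assume that no quotient of two distinct zeros of `f` is a root of unity of `p`-power order, or that the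
number of the zeros of `f` outside the closed unit disc is at most `s`; then `ε` depends on `s` also. If
`T` contains all the prime ideals above `p`, and their ramification indices are at most `E`, then
neither of these is assumed, and there are only finitely many such monic `f` below any bound for `M(f)`.

The lower bounds for number fields are those of the library `Q262/RL` (`key2`, `key4`, `ram_mahler`);
`Results.MP_9599cf_nt.LargeSubfields` of the starting files is the case of Salem numbers.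
-/

set_option autoImplicit false

open NumberField Module Polynomial IntermediateField

namespace Pool.Agent.Results.MP_7ab245_nt.LargeSubfields

/-- The number field `F` has an automorphism `τ` and a set `T` of prime ideals above `p` with
`x ^ q ≡ τ x` modulo `P` for all the integers `x` of `F` and all `P` in `T`, such that the sum of the
local degrees (products of ramification index and residue degree) of the members of `T` is at least
`[F : ℚ] / B`. (For `B = 1` this means that all the prime ideals above `p` are in `T`.) -/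
def HasFrobenius (p q B : ℕ) (F : Type) [Field F] [NumberField F] : Prop :=
  ∃ (τ : F ≃+* F) (T : Finset (Ideal (𝓞 F))),
    (∀ P ∈ T, P ∈ (Ideal.span {(p : ℤ)}).primesOver (𝓞 F) ∧
      ∀ x : 𝓞 F, x ^ q - RingOfIntegers.mapRingHom (τ : F →+* F) x ∈ P) ∧
    finrank ℚ F ≤ B * ∑ P ∈ T, P.ramificationIdx ℤ * P.inertiaDeg ℤ

/-- All the ramification indices of `F` above `p` are at most `E`. -/
def RamificationAtMost (p E : ℕ) (F : Type) [Field F] [NumberField F] : Prop :=
  ∀ P ∈ (Ideal.span {(p : ℤ)}).primesOver (𝓞 F), P.ramificationIdx ℤ ≤ E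

/-- The ramification indices of `F` above `p` are equal up to a factor of at most `B`. -/
def ComparableRamification (p B : ℕ) (F : Type) [Field F] [NumberField F] : Prop :=
  ∀ P ∈ (Ideal.span {(p : ℤ)}).primesOver (𝓞 F), ∀ Q ∈ (Ideal.span {(p : ℤ)}).primesOver (𝓞 F),
    P.ramificationIdx ℤ ≤ B * Q.ramificationIdx ℤ

/-- The condition on an extension of relative degree `D` of `F`: either `D` is at most
`C [F : ℚ] ^ κ`, and `x ^ (p ^ e) ≡ τ x` holds for at least the `B`-th part of the prime ideals above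
`p`, or it holds for all of them, their ramification indices are equal up to a factor `B`, and
`log (2 [F : ℚ] D) exp (√(3 e log p log D)) ≤ C [F : ℚ]`. -/
def IsLarge (p e B C κ : ℕ) (F : Type) [Field F] [NumberField F] (D : ℕ) : Prop :=
  (HasFrobenius p (p ^ e) B F ∧ D ≤ C * finrank ℚ F ^ κ) ∨
  (HasFrobenius p (p ^ e) 1 F ∧ ComparableRamification p B F ∧
    Real.log (2 * (finrank ℚ F * D)) * Real.exp (√(3 * (e * Real.log p) * Real.log D)) ≤
      C * finrank ℚ F)

/-- The number field `K` contains a zero `x` of the irreducible polynomial `f`, and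
`[K : ℚ(x)] ≤ C`. -/
def ExtendsField (C : ℕ) (f : ℤ[X]) (K : Type) [Field K] [NumberField K] : Prop :=
  ∃ x : K, aeval x f = 0 ∧ finrank ℚ K ≤ C * f.natDegree

/-- `10 p ^ (2 e + 1) E exp (√(3 e log p log D)) / log p` -/
noncomputable def cost (p e E D : ℕ) : ℝ :=
  10 * (p : ℝ) ^ (2 * e + 1) * E * Real.exp (√(3 * (e * Real.log p) * Real.log D)) / Real.log p

/-- The number of the complex roots of `P` outside the closed unit disc, with multiplicity. -/
noncomputable def rootsOutside (P : ℤ[X]) : ℕ :=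
  ((P.map (Int.castRingHom ℂ)).roots.filter fun z => 1 < ‖z‖).card

/-- The Mahler measure of `P`. -/
noncomputable def mahler (P : ℤ[X]) : ℝ := (P.map (Int.castRingHom ℂ)).mahlerMeasure

/-- No quotient of two distinct complex zeros of `f` is a root of unity of `p`-power order. -/
def Nondegenerate (p : ℕ) (f : ℤ[X]) : Prop :=
  ∀ z w : ℂ, aeval z f = 0 → aeval w f = 0 → ∀ i : ℕ, z ^ p ^ i = w ^ p ^ i → z = w

/-- The monic irreducible integer polynomials `f` with `M(f) > 1` such that an extension `K` of degree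
at most `C` of the field of a zero of `f` contains a number field `F` with
`HasFrobenius p (p ^ e) 1 F`, with ramification indices above `p` at most `E`, and with
`[K : F] ≤ C [F : ℚ] ^ κ`. -/
def Family (p e E C κ : ℕ) : Set ℤ[X] :=
  {f | f.Monic ∧ Irreducible f ∧ 1 < mahler f ∧ ∃ (F K : Type) (_ : Field F) (_ : NumberField F)
    (_ : Field K) (_ : NumberField K) (_ : Algebra F K), ExtendsField C f K ∧
      HasFrobenius p (p ^ e) 1 F ∧ RamificationAtMost p E F ∧ finrank F K ≤ C * finrank ℚ F ^ κ}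

lemma eq_minpoly {K : Type} [Field K] [NumberField K] {P : ℤ[X]} (hP : P.Monic) (hI : Irreducible P)
    {x : K} (hx : aeval x P = 0) : P = minpoly ℤ x := by
  have hxi : IsIntegral ℤ x := ⟨P, hP, by rwa [aeval_def] at hx⟩
  have h1 : Irreducible (P.map (algebraMap ℤ ℚ)) :=
    (hP.irreducible_iff_irreducible_map_fraction_map (K := ℚ)).1 hI
  have h2 : P.map (algebraMap ℤ ℚ) = minpoly ℚ x :=
    minpoly.eq_of_irreducible_of_monic h1 (by rw [aeval_map_algebraMap]; exact hx) (hP.map _)
  rw [minpoly.isIntegrallyClosed_eq_field_fractions' ℚ hxi] at h2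
  exact Polynomial.map_injective (algebraMap ℤ ℚ) (algebraMap ℤ ℚ).injective_int h2

/-- The data of a root: the field it generates. -/
lemma setup {K : Type} [Field K] [NumberField K] {P : ℤ[X]} (hP : P.Monic) (hI : Irreducible P)
    {x : K} (hx : aeval x P = 0) : ∃ (y : 𝓞 ℚ⟮x⟯), ((y : ℚ⟮x⟯) : K) = x ∧
      ℚ⟮(y : ℚ⟮x⟯)⟯ = ⊤ ∧ P = minpoly ℤ (y : ℚ⟮x⟯) ∧ finrank ℚ ℚ⟮x⟯ = P.natDegree := by
  have hxi : IsIntegral ℤ x := ⟨P, hP, by rwa [aeval_def] at hx⟩
  have hxq : IsIntegral ℚ x := hxi.tower_top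
  set g : ℚ⟮x⟯ := AdjoinSimple.gen ℚ x with hg
  have hgx : algebraMap ℚ⟮x⟯ K g = x := AdjoinSimple.algebraMap_gen ℚ x
  have hgi : IsIntegral ℤ g := by
    have h1 : IsIntegral ℤ (algebraMap ℚ⟮x⟯ K g) := by rw [hgx]; exact hxi
    exact (isIntegral_algebraMap_iff (algebraMap ℚ⟮x⟯ K).injective).mp h1
  have hg0 : aeval g P = 0 := by
    apply (algebraMap ℚ⟮x⟯ K).injective
    rw [map_zero, ← aeval_algebraMap_apply, hgx, hx]
  have hPg : P = minpoly ℤ g := eq_minpoly hP hI hg0
  have hdeg : finrank ℚ ℚ⟮x⟯ = P.natDegree := by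
    rw [IntermediateField.adjoin.finrank hxq, minpoly.isIntegrallyClosed_eq_field_fractions' ℚ hxi,
      (minpoly.monic hxi).natDegree_map, ← eq_minpoly hP hI hx]
  refine ⟨⟨g, hgi⟩, hgx, ?_, hPg, hdeg⟩
  rw [Field.primitive_element_iff_minpoly_natDegree_eq]
  show (minpoly ℚ g).natDegree = _
  rw [minpoly.isIntegrallyClosed_eq_field_fractions' ℚ hgi, (minpoly.monic hgi).natDegree_map,
    ← hPg, hdeg]

lemma roots_eq {K : Type} [Field K] [NumberField K] (y : 𝓞 K) (hy : ℚ⟮(y : K)⟯ = ⊤) :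
    ((minpoly ℤ (y : K)).map (Int.castRingHom ℂ)).roots =
      (Finset.univ : Finset (K →ₐ[ℚ] ℂ)).val.map fun τ => τ (y : K) := by
  have hc := Pool.Agent.Y399.RD.cinj_of_adjoin hy
  have hα : IsIntegral ℤ (y : K) := y.isIntegral_coe
  have hpmap : (minpoly ℤ (y : K)).map (Int.castRingHom ℂ) =
      ∏ τ : K →ₐ[ℚ] ℂ, (X - C (τ (y : K))) := by
    rw [← Pool.Agent.H388SL.minpoly_map_eq hc,
      minpoly.isIntegrallyClosed_eq_field_fractions' ℚ hα, Polynomial.map_map]
    rfl
  have h2 := Polynomial.roots_multiset_prod_X_sub_C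
    ((Finset.univ : Finset (K →ₐ[ℚ] ℂ)).val.map fun τ => τ (y : K))
  rw [Multiset.map_map] at h2
  rw [hpmap]
  exact h2

lemma card_outside {K : Type} [Field K] [NumberField K] (y : 𝓞 K) (hy : ℚ⟮(y : K)⟯ = ⊤)
    [DecidablePred fun σ : K →+* ℂ => 1 < ‖σ (y : K)‖] :
    (Finset.univ.filter fun σ : K →+* ℂ => 1 < ‖σ (y : K)‖).card ≤
      rootsOutside (minpoly ℤ (y : K)) := by
  classical
  unfold rootsOutside
  rw [roots_eq y hy, Multiset.filter_map, Multiset.card_map]
  rw [show (Multiset.filter ((fun z : ℂ => 1 < ‖z‖) ∘ fun τ : K →ₐ[ℚ] ℂ => τ (y : K))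
    (Finset.univ : Finset (K →ₐ[ℚ] ℂ)).val).card =
    (Finset.univ.filter fun τ : K →ₐ[ℚ] ℂ => 1 < ‖τ (y : K)‖).card by
      simp only [Finset.card_def, Finset.filter_val, Function.comp_def]]
  refine Finset.card_le_card_of_injOn (fun σ => σ.toRatAlgHom) ?_ ?_
  · intro σ hσ
    rw [Finset.mem_coe, Finset.mem_filter] at hσ ⊢
    exact ⟨Finset.mem_univ _, hσ.2⟩
  · intro σ _ σ' _ h
    ext z
    exact DFunLike.congr_fun h z

/-- The Mahler measure of a polynomial with a large subfield of an extension of its root field. -/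
lemma step (s C : ℕ) (μ : ℝ) {K : Type} [Field K] [NumberField K] {P : ℤ[X]}
    (hP : P.Monic) (hI : Irreducible P) (hs : rootsOutside P ≤ s) {x : K} (hx : aeval x P = 0)
    (hC : finrank ℚ K ≤ C * P.natDegree)
    (hkey : ∀ (M : IntermediateField ℚ K) (β : 𝓞 M), finrank M K ≤ s * C → β ≠ 0 →
      (∀ m : ℕ, 0 < m → β ^ m ≠ 1) → (∀ i : ℕ, 0 < i → ℚ⟮(β : M) ^ i⟯ = ⊤) →
      μ ≤ Real.log ((minpoly ℤ (β : M)).map (Int.castRingHom ℂ)).mahlerMeasure) :
    mahler P = 1 ∨ μ ≤ (s * C : ℕ) * Real.log (mahler P) := by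
  classical
  obtain ⟨y, hyx, hytop, hPy, hdeg⟩ := setup hP hI hx
  have hlog : Real.log (mahler P) = Pool.Agent.H388SL.lam (y : ℚ⟮x⟯) := by
    unfold mahler
    rw [hPy]
    exact Pool.Agent.Y399.MG.log_mahler y hytop
  have hM1 : 1 ≤ mahler P := by
    unfold mahler
    refine Polynomial.one_le_mahlerMeasure_of_ne_zero ?_
    exact hP.ne_zero
  have hpos : 0 < mahler P := one_pos.trans_le hM1
  by_cases h1 : mahler P = 1
  · exact Or.inl h1
  right
  have hlam0 : Pool.Agent.H388SL.lam (y : ℚ⟮x⟯) ≠ 0 := by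
    intro h0
    rw [h0] at hlog
    apply h1
    rcases Real.log_eq_zero.1 hlog with h | h | h
    · exact absurd h hpos.ne'
    · exact h
    · linarith
  have hbd : ∀ σ : ℚ⟮x⟯ →ₐ[ℚ] ℂ, ‖σ (y : ℚ⟮x⟯)‖ ≤ mahler P := by
    intro σ
    have h2 : Real.log (max 1 ‖σ (y : ℚ⟮x⟯)‖) ≤ Pool.Agent.H388SL.lam (y : ℚ⟮x⟯) :=
      Finset.single_le_sum (f := fun σ : ℚ⟮x⟯ →ₐ[ℚ] ℂ => Real.log (max 1 ‖σ (y : ℚ⟮x⟯)‖))
        (fun _ _ => Real.log_nonneg (le_max_left _ _)) (Finset.mem_univ σ)
    rw [← hlog] at h2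
    have h3 : (0 : ℝ) < max 1 ‖σ (y : ℚ⟮x⟯)‖ := lt_of_lt_of_le one_pos (le_max_left _ _)
    exact (le_max_right _ _).trans ((Real.log_le_log_iff h3 hpos).1 h2)
  have hx0 : x ≠ 0 := by
    intro h
    apply hlam0
    have h4 : (y : ℚ⟮x⟯) = 0 := by
      apply (algebraMap ℚ⟮x⟯ K).injective
      rw [map_zero]
      exact hyx.trans h
    unfold Pool.Agent.H388SL.lam
    refine Finset.sum_eq_zero fun σ _ => ?_
    rw [h4, map_zero, norm_zero, max_eq_left zero_le_one, Real.log_one]
  have hroot : ∀ m : ℕ, 0 < m → x ^ m ≠ 1 := by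
    intro m hm h
    apply hlam0
    have h4 : (y : ℚ⟮x⟯) ^ m = 1 := by
      apply (algebraMap ℚ⟮x⟯ K).injective
      rw [map_one, map_pow]
      have h5 : algebraMap ℚ⟮x⟯ K (y : ℚ⟮x⟯) = x := hyx
      rw [h5, h]
    unfold Pool.Agent.H388SL.lam
    refine Finset.sum_eq_zero fun σ _ => ?_
    have h5 : ‖σ (y : ℚ⟮x⟯)‖ ^ m = 1 := by
      rw [← norm_pow, ← map_pow, h4, map_one, norm_one]
    have h6 : ‖σ (y : ℚ⟮x⟯)‖ = 1 := (pow_eq_one_iff_of_nonneg (norm_nonneg _) hm.ne').1 h5
    rw [h6, max_self, Real.log_one]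
  have hxi : IsIntegral ℤ x := ⟨P, hP, by rwa [aeval_def] at hx⟩
  have hres : ∀ τ : K →+* ℂ, (τ.comp (algebraMap ℚ⟮x⟯ K)) (y : ℚ⟮x⟯) = τ x := by
    intro τ
    show τ ((y : ℚ⟮x⟯) : K) = τ x
    rw [hyx]
  set S : Finset (ℚ⟮x⟯ →+* ℂ) := Finset.univ.filter fun σ => 1 < ‖σ (y : ℚ⟮x⟯)‖ with hS
  have hScard : S.card ≤ s := by
    refine (card_outside y hytop).trans ?_
    rw [← hPy]
    exact hs
  have hn : finrank ℚ⟮x⟯ K ≤ C := by
    have hd : 0 < P.natDegree := by rw [← hdeg]; exact finrank_pos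
    have h7 : P.natDegree * finrank ℚ⟮x⟯ K ≤ P.natDegree * C := by
      rw [← hdeg, Module.finrank_mul_finrank ℚ ℚ⟮x⟯ K, hdeg, mul_comm P.natDegree C]
      exact hC
    exact Nat.le_of_mul_le_mul_left h7 hd
  obtain ⟨M, β, h1', h2', h3', h4', h5'⟩ := Pool.Agent.Y399.MG.transfer S x s C (mahler P) hx0 hxi
    hroot hM1 (fun τ hτ => by
      by_contra hcon
      push Not at hcon
      apply hτ
      rw [hS, Finset.mem_filter]
      refine ⟨Finset.mem_univ _, ?_⟩
      rw [hres τ]
      exact hcon)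
    (fun τ => by
      rw [← hres τ]
      exact hbd (τ.comp (algebraMap ℚ⟮x⟯ K)).toRatAlgHom) hScard hn
  have h6' : ℚ⟮(β : M)⟯ = ⊤ := by
    have := h4' 1 one_pos
    rwa [pow_one] at this
  have h7' := hkey M β h1' h2' h3' h4'
  rw [Pool.Agent.Y399.MG.log_mahler β h6'] at h7'
  exact h7'.trans h5'

/-- The data of a zero of `f`: what is needed of the field it generates. -/
lemma data {K : Type} [Field K] [NumberField K] {f : ℤ[X]} (hP : f.Monic) (hI : Irreducible f)
    (hM : 1 < mahler f) {C : ℕ} (hK : ExtendsField C f K) :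
    ∃ (x : K) (y : 𝓞 ℚ⟮x⟯), ℚ⟮(y : ℚ⟮x⟯)⟯ = ⊤ ∧ f = minpoly ℤ (y : ℚ⟮x⟯) ∧ y ≠ 0 ∧
      (∀ m : ℕ, 0 < m → y ^ m ≠ 1) ∧ finrank ℚ⟮x⟯ K ≤ C := by
  obtain ⟨x, hx, hC⟩ := hK
  obtain ⟨y, hyx, hytop, hPy, hdeg⟩ := setup hP hI hx
  have hlog : Real.log (mahler f) = Pool.Agent.H388SL.lam (y : ℚ⟮x⟯) := by
    unfold mahler
    rw [hPy]
    exact Pool.Agent.Y399.MG.log_mahler y hytop
  have hlam0 : Pool.Agent.H388SL.lam (y : ℚ⟮x⟯) ≠ 0 := by
    rw [← hlog]
    exact (Real.log_pos hM).ne'
  refine ⟨x, y, hytop, hPy, ?_, ?_, ?_⟩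
  · intro h
    apply hlam0
    unfold Pool.Agent.H388SL.lam
    refine Finset.sum_eq_zero fun σ _ => ?_
    rw [h]
    simp
  · intro m hm h
    apply hlam0
    have h4 : (y : ℚ⟮x⟯) ^ m = 1 := by
      have := congrArg (fun z : 𝓞 ℚ⟮x⟯ => (z : ℚ⟮x⟯)) h
      simpa using this
    unfold Pool.Agent.H388SL.lam
    refine Finset.sum_eq_zero fun σ _ => ?_
    have h5 : ‖σ (y : ℚ⟮x⟯)‖ ^ m = 1 := by
      rw [← norm_pow, ← map_pow, h4, map_one, norm_one]
    have h6 : ‖σ (y : ℚ⟮x⟯)‖ = 1 := (pow_eq_one_iff_of_nonneg (norm_nonneg _) hm.ne').1 h5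
    rw [h6, max_self, Real.log_one]
  · have hd : 0 < f.natDegree := by rw [← hdeg]; exact finrank_pos
    have h7 : f.natDegree * finrank ℚ⟮x⟯ K ≤ f.natDegree * C := by
      rw [← hdeg, Module.finrank_mul_finrank ℚ ℚ⟮x⟯ K, hdeg, mul_comm f.natDegree C]
      exact hC
    exact Nat.le_of_mul_le_mul_left h7 hd

/-- The powers `y ^ (p ^ i)` generate the field if `f` is nondegenerate at `p`. -/
lemma powers {p : ℕ} {f : ℤ[X]} (hnd : Nondegenerate p f) {M : Type} [Field M] [NumberField M]
    (y : 𝓞 M) (hytop : ℚ⟮(y : M)⟯ = ⊤) (hPy : f = minpoly ℤ (y : M)) (i : ℕ) :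
    ℚ⟮(y : M) ^ p ^ i⟯ = ⊤ := by
  rw [Field.primitive_element_iff_algHom_eq_of_eval' ℚ ℂ (fun x => IsAlgClosed.splits _)]
  rw [Field.primitive_element_iff_algHom_eq_of_eval' ℚ ℂ (fun x => IsAlgClosed.splits _)] at hytop
  intro φ ψ h
  apply hytop
  have hz : ∀ φ : M →ₐ[ℚ] ℂ, aeval (φ (y : M)) f = 0 := by
    intro φ
    have h1 : aeval (φ (y : M)) f = (φ : M →+* ℂ) (aeval (y : M) f) := by
      rw [hPy]
      have h2 := (aeval_algHom_apply (φ.restrictScalars ℤ) (y : M) (minpoly ℤ (y : M)))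
      exact h2
    rw [h1, hPy, minpoly.aeval, map_zero]
  apply hnd _ _ (hz φ) (hz ψ) i
  simpa using h

/-- An irreducible polynomial which is not monic up to the sign has Mahler measure at least `2`. -/
lemma monic_or {f : ℤ[X]} (hI : Irreducible f) : f.Monic ∨ (-f).Monic ∨ 2 ≤ mahler f := by
  have h0 : f.leadingCoeff ≠ 0 := leadingCoeff_ne_zero.2 hI.ne_zero
  by_cases h1 : f.leadingCoeff = 1
  · exact Or.inl h1
  by_cases h2 : f.leadingCoeff = -1
  · right; left
    unfold Monic
    rw [leadingCoeff_neg, h2]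
    norm_num
  right; right
  have h3 : (2 : ℝ) ≤ ‖(f.map (Int.castRingHom ℂ)).leadingCoeff‖ := by
    rw [leadingCoeff_map_of_injective (RingHom.injective_int (Int.castRingHom ℂ))]
    have h4 : (2 : ℤ) ≤ |f.leadingCoeff| := by
      rcases abs_cases f.leadingCoeff with h | h <;> omega
    have h5 : ‖(Int.castRingHom ℂ) f.leadingCoeff‖ = ((|f.leadingCoeff| : ℤ) : ℝ) := by
      rw [eq_intCast, Complex.norm_intCast, Int.cast_abs]
    rw [h5]
    exact_mod_cast h4
  exact h3.trans (Polynomial.leadingCoeff_le_mahlerMeasure _)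

lemma mahler_neg (f : ℤ[X]) : mahler (-f) = mahler f := by
  unfold mahler
  rw [Polynomial.map_neg, mahlerMeasure_eq_leadingCoeff_mul_prod_roots,
    mahlerMeasure_eq_leadingCoeff_mul_prod_roots, leadingCoeff_neg, norm_neg, roots_neg]

/-- the explicit bound -/
lemma explicit {p e E C : ℕ} (hp : p.Prime) (he : 0 < e) {f : ℤ[X]} (hP : f.Monic)
    (hI : Irreducible f) (hM : 1 < mahler f)
    {F K : Type} [Field F] [NumberField F] [Field K] [NumberField K] [Algebra F K]
    (hK : ExtendsField C f K) (hF : HasFrobenius p (p ^ e) 1 F) (hE : RamificationAtMost p E F) :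
    (finrank ℚ F : ℝ) ≤ C * cost p e E (finrank F K) * Real.log (mahler f) := by
  obtain ⟨x, y, hytop, hPy, hy0, hyr, hn⟩ := data hP hI hM hK
  have hpos : 0 < Real.log (mahler f) := Real.log_pos hM
  have h2 := Pool.Agent.Q262.RL.ram_mahler (F := F) (K := K) hp he
    (Pool.Agent.Q262.RL.all_of_mass hp hF) hE y hy0 hyr hytop
  rw [← hPy] at h2
  change (finrank ℚ F : ℝ) ≤ Pool.Agent.Q262.RL.rcost p e E (finrank F K) *
    (finrank ℚ⟮x⟯ K * Real.log (mahler f)) at h2
  have hcost : Pool.Agent.Q262.RL.rcost p e E (finrank F K) = cost p e E (finrank F K) := by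
    unfold cost Pool.Agent.Q262.RL.rcost
    ring
  have hc0 : 0 ≤ cost p e E (finrank F K) := by
    unfold cost
    have : 0 ≤ Real.log p := Real.log_natCast_nonneg p
    positivity
  rw [hcost] at h2
  refine h2.trans ?_
  have h13 : (finrank ℚ⟮x⟯ K : ℝ) ≤ C := by exact_mod_cast hn
  calc cost p e E (finrank F K) * (finrank ℚ⟮x⟯ K * Real.log (mahler f))
      ≤ cost p e E (finrank F K) * (C * Real.log (mahler f)) :=
        mul_le_mul_of_nonneg_left (mul_le_mul_of_nonneg_right h13 hpos.le) hc0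
    _ = C * cost p e E (finrank F K) * Real.log (mahler f) := by ring

/-- the elementary estimate: `n ≤ W exp (√(c log D))` and `D ≤ C n ^ κ` bound `n` -/
lemma bound_n (c W : ℝ) (hc : 0 ≤ c) (C κ n D : ℕ) (hn : 0 < n) (hD : 0 < D)
    (hDC : D ≤ C * n ^ κ) (h : (n : ℝ) ≤ W * Real.exp (√(c * Real.log D))) :
    (n : ℝ) ≤ Real.exp (2 * (Real.log W + c * (κ + 1) / 2 + Real.log C)) := by
  have hn' : (1 : ℝ) ≤ n := by exact_mod_cast hn
  have hn0 : (0 : ℝ) < n := by linarith
  have hW : 0 < W := by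
    by_contra hW
    push Not at hW
    have : W * Real.exp (√(c * Real.log D)) ≤ 0 :=
      mul_nonpos_of_nonpos_of_nonneg hW (Real.exp_pos _).le
    linarith
  have hC : 0 < C := by
    rcases Nat.eq_zero_or_pos C with h0 | h0
    · rw [h0, zero_mul] at hDC
      omega
    · exact h0
  have hC' : (1 : ℝ) ≤ C := by exact_mod_cast hC
  have hlogD : Real.log D ≤ Real.log C + κ * Real.log n := by
    have h1 : (D : ℝ) ≤ C * (n : ℝ) ^ κ := by exact_mod_cast hDC
    have hD0 : (0 : ℝ) < D := by exact_mod_cast hD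
    calc Real.log D ≤ Real.log (C * (n : ℝ) ^ κ) := Real.log_le_log hD0 h1
      _ = Real.log C + κ * Real.log n := by
        rw [Real.log_mul (by positivity) (by positivity), Real.log_pow]
  have hD1 : 0 ≤ Real.log D := Real.log_natCast_nonneg D
  have hlC : 0 ≤ Real.log C := Real.log_nonneg hC'
  have hln : 0 ≤ Real.log n := Real.log_nonneg hn'
  have hlog : Real.log n ≤ Real.log W + √(c * Real.log D) := by
    have h1 := Real.log_le_log hn0 h
    rwa [Real.log_mul hW.ne' (Real.exp_pos _).ne', Real.log_exp] at h1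
  have hk : (0 : ℝ) < κ + 1 := by positivity
  have hamgm : √(c * Real.log D) ≤ c * (κ + 1) / 2 + Real.log D / (2 * (κ + 1)) := by
    rw [Real.sqrt_le_left (by positivity)]
    have h3 : (c * (κ + 1) / 2 + Real.log D / (2 * (κ + 1))) ^ 2 - c * Real.log D =
        (c * (κ + 1) / 2 - Real.log D / (2 * (κ + 1))) ^ 2 := by
      field_simp
      ring
    have h4 := sq_nonneg (c * (κ + 1) / 2 - Real.log D / (2 * (κ + 1)))
    linarith
  have h5 : Real.log D / (2 * (κ + 1)) ≤ Real.log C + Real.log n / 2 := by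
    rw [div_le_iff₀ (by positivity)]
    nlinarith [mul_nonneg hlC hk.le, mul_nonneg hln hk.le, mul_nonneg hlC (Nat.cast_nonneg (α := ℝ) κ)]
  have h6 : Real.log n ≤ 2 * (Real.log W + c * (κ + 1) / 2 + Real.log C) := by linarith
  calc (n : ℝ) = Real.exp (Real.log n) := (Real.exp_log hn0).symm
    _ ≤ _ := Real.exp_le_exp.2 h6

lemma family_finite {p e : ℕ} (E C κ : ℕ) (hp : p.Prime) (he : 0 < e) (X : ℝ) :
    (Family p e E C κ ∩ {f | mahler f ≤ X}).Finite := by
  set W : ℝ := C * (10 * (p : ℝ) ^ (2 * e + 1) * E / Real.log p) * Real.log X with hW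
  set c : ℝ := 3 * (e * Real.log p) with hc
  have hlp : 0 ≤ Real.log p := Real.log_natCast_nonneg p
  have hc0 : 0 ≤ c := by positivity
  set Y : ℝ := Real.exp (2 * (Real.log W + c * (κ + 1) / 2 + Real.log C)) with hY
  set N : ℕ := ⌊Y⌋₊ with hN
  have hfin := Polynomial.finite_mahlerMeasure_le (N * (C * N ^ κ)) (Real.toNNReal X)
  refine hfin.subset ?_
  rintro f ⟨⟨hP, hI, hM, F, K, _, _, _, _, _, hK, hF, hE, hD⟩, htX⟩
  haveI : FiniteDimensional F K := FiniteDimensional.right ℚ F K
  have h1 := explicit hp he hP hI hM hK hF hE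
  obtain ⟨x, hx, hC⟩ := hK
  obtain ⟨-, -, -, -, hdeg⟩ := setup hP hI hx
  have htX' : mahler f ≤ X := htX
  have hlogX : Real.log (mahler f) ≤ Real.log X := Real.log_le_log (by linarith) htX'
  have hn0 : 0 < finrank ℚ F := finrank_pos
  have hD0 : 0 < finrank F K := finrank_pos
  have hcost0 : 0 ≤ cost p e E (finrank F K) := by
    unfold cost
    positivity
  have h2 : (finrank ℚ F : ℝ) ≤ W * Real.exp (√(c * Real.log (finrank F K))) := by
    refine h1.trans ?_
    refine (mul_le_mul_of_nonneg_left hlogX (mul_nonneg (Nat.cast_nonneg _) hcost0)).trans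
      (le_of_eq ?_)
    unfold cost
    rw [hW, hc]
    ring
  have h3 := bound_n c W hc0 C κ (finrank ℚ F) (finrank F K) hn0 hD0 hD h2
  have h4 : finrank ℚ F ≤ N := Nat.le_floor h3
  refine ⟨?_, ?_⟩
  · haveI : FiniteDimensional ℚ⟮x⟯ K := FiniteDimensional.right ℚ ℚ⟮x⟯ K
    have h5 : finrank ℚ ℚ⟮x⟯ ≤ finrank ℚ K := by
      rw [← Module.finrank_mul_finrank ℚ ℚ⟮x⟯ K]
      exact Nat.le_mul_of_pos_right _ finrank_pos
    rw [← hdeg]
    refine h5.trans ?_
    rw [← Module.finrank_mul_finrank ℚ F K]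
    refine Nat.mul_le_mul h4 (hD.trans (Nat.mul_le_mul_left _ (Nat.pow_le_pow_left h4 _)))
  · have h6 : (f.map (Int.castRingHom ℂ)).mahlerMeasure = mahler f := rfl
    rw [h6, Real.coe_toNNReal X (by linarith)]
    exact htX'

lemma irr_neg {f : ℤ[X]} (hI : Irreducible f) : Irreducible (-f) :=
  ((Associated.neg_left (Associated.refl f)).irreducible_iff).2 hI

lemma nondeg_neg {p : ℕ} {f : ℤ[X]} (h : Nondegenerate p f) : Nondegenerate p (-f) := by
  intro z w hz hw i
  refine h z w ?_ ?_ i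
  · rwa [map_neg, neg_eq_zero] at hz
  · rwa [map_neg, neg_eq_zero] at hw

lemma extends_neg {C : ℕ} {f : ℤ[X]} {K : Type} [Field K] [NumberField K]
    (h : ExtendsField C f K) : ExtendsField C (-f) K := by
  obtain ⟨x, hx, hC⟩ := h
  exact ⟨x, by rw [map_neg, hx, neg_zero], by rwa [natDegree_neg]⟩

lemma outside_neg (f : ℤ[X]) : rootsOutside (-f) = rootsOutside f := by
  unfold rootsOutside
  rw [Polynomial.map_neg, roots_neg]

lemma gap {μ m : ℝ} (hm : 0 < m) (h : μ ≤ Real.log m) : 1 + μ ≤ m := by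
  have h1 := Real.add_one_le_exp (Real.log m)
  rw [Real.exp_log hm] at h1
  linarith

lemma part1 {p e : ℕ} (B C κ : ℕ) (hp : p.Prime) (he : 0 < e) : ∃ μ : ℝ, 0 < μ ∧
    ∀ f : ℤ[X], f.Monic → Irreducible f → 1 < mahler f → Nondegenerate p f →
      ∀ (F K : Type) [Field F] [NumberField F] [Field K] [NumberField K] [Algebra F K],
        ExtendsField C f K → IsLarge p e B C κ F (finrank F K) → μ ≤ Real.log (mahler f) := by
  obtain ⟨μ1, hμ1, hkey1⟩ := Pool.Agent.Q262.RL.key4 hp he B κ C C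
  obtain ⟨μ2, hμ2, hkey2⟩ := Pool.Agent.Q262.RL.key2 hp he B C (C : ℝ)
  refine ⟨min μ1 μ2, lt_min hμ1 hμ2, ?_⟩
  intro f hP hI hM hnd F K _ _ _ _ _ hK hF
  obtain ⟨x, y, hytop, hPy, hy0, hyr, hn⟩ := data hP hI hM hK
  rcases hF with ⟨hF1, hF2⟩ | ⟨hF1, hF2, hF3⟩
  · have h := hkey1 F K ℚ⟮x⟯ y hF1 hF2 hn hy0 hyr (powers hnd y hytop hPy)
    rw [← hPy] at h
    exact (min_le_left _ _).trans h
  · have h := hkey2 F K ℚ⟮x⟯ y (finrank F K) (Pool.Agent.Q262.RL.all_of_mass hp hF1) hF2 le_rfl hF3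
      hn hy0 hyr (powers hnd y hytop hPy)
    rw [← hPy] at h
    exact (min_le_right _ _).trans h

lemma part2 {p e : ℕ} (B C κ s : ℕ) (hp : p.Prime) (he : 0 < e) : ∃ μ : ℝ, 0 < μ ∧
    ∀ f : ℤ[X], f.Monic → Irreducible f → 1 < mahler f → rootsOutside f ≤ s →
      ∀ (F K : Type) [Field F] [NumberField F] [Field K] [NumberField K] [Algebra F K],
        ExtendsField C f K → IsLarge p e B C κ F (finrank F K) → μ ≤ Real.log (mahler f) := by
  obtain ⟨μ1, hμ1, hkey1⟩ := Pool.Agent.Q262.RL.key4 hp he B κ (s * C) C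
  obtain ⟨μ2, hμ2, hkey2⟩ := Pool.Agent.Q262.RL.key2 hp he B (s * C) (C : ℝ)
  set μ : ℝ := min μ1 μ2 with hμdef
  have hμ : 0 < μ := lt_min hμ1 hμ2
  have hN : (0 : ℝ) < ((s * C : ℕ) : ℝ) + 1 := by positivity
  refine ⟨μ / (((s * C : ℕ) : ℝ) + 1), by positivity, ?_⟩
  intro f hP hI hM hs F K _ _ _ _ _ hK hF
  obtain ⟨x, hx, hC⟩ := hK
  have hlog0 : 0 < Real.log (mahler f) := Real.log_pos hM
  rcases step s C μ hP hI hs hx hC (fun M β h1 h2 h3 h4 => by
      rcases hF with ⟨hF1, hF2⟩ | ⟨hF1, hF2, hF3⟩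
      · exact (min_le_left _ _).trans (hkey1 F K M β hF1 hF2 h1 h2 h3
          fun i => h4 _ (pow_pos hp.pos i))
      · exact (min_le_right _ _).trans (hkey2 F K M β (finrank F K)
          (Pool.Agent.Q262.RL.all_of_mass hp hF1) hF2 le_rfl hF3 h1 h2 h3
          fun i => h4 _ (pow_pos hp.pos i))) with h | h
  · exfalso
    linarith
  rw [div_le_iff₀ hN, mul_comm]
  refine h.trans ?_
  exact mul_le_mul_of_nonneg_right (by linarith) hlog0.le

/-- **Lehmer's problem and number fields with a large subfield.**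

1. For every prime number `p` and all `e > 0`, `B`, `C`, `κ` there is `ε > 0` such that
   `M(f) ≥ 1 + ε` for all irreducible integer polynomials `f` with `M(f) > 1`, no two distinct zeros of
   which have a root of unity of `p`-power order as quotient, and for which an extension `K` of degree
   at most `C` of the field of a zero of `f` contains a number field `F` with
   `IsLarge p e B C κ F [K : F]`.
2. The same with `ε` depending also on `s`, if the condition on the quotients is replaced by the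
   condition that at most `s` zeros of `f` lie outside the closed unit disc.
3. If `f` is monic and irreducible, `M(f) > 1`, `K` an extension of degree at most `C` of the field of a
   zero of `f` and `F` a subfield of `K` with `HasFrobenius p (p ^ e) 1 F` and ramification indices
   above `p` at most `E`, then `[F : ℚ] ≤ C cost(p, e, E, [K : F]) log M(f)`.
4. There are only finitely many `f` in `Family p e E C κ` with `M(f)` below any bound, and one of them
   has the smallest Mahler measure, if there are any.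
5. If there is a set of prime ideals of `F` above `p`, of residue degrees at most `r`, whose local
   degrees have a sum of at least `[F : ℚ] / B`, then `HasFrobenius p (p ^ r !) B F`.
6. If `F` is Galois over `ℚ`, then `ComparableRamification p 1 F`. -/
theorem result :
    (∀ (p e B C κ : ℕ), p.Prime → 0 < e → ∃ ε : ℝ, 0 < ε ∧ ∀ f : ℤ[X], Irreducible f →
      1 < mahler f → Nondegenerate p f →
      ∀ (F K : Type) [Field F] [NumberField F] [Field K] [NumberField K] [Algebra F K],
        ExtendsField C f K → IsLarge p e B C κ F (finrank F K) → 1 + ε ≤ mahler f) ∧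
    (∀ (p e B C κ s : ℕ), p.Prime → 0 < e → ∃ ε : ℝ, 0 < ε ∧ ∀ f : ℤ[X], Irreducible f →
      1 < mahler f → rootsOutside f ≤ s →
      ∀ (F K : Type) [Field F] [NumberField F] [Field K] [NumberField K] [Algebra F K],
        ExtendsField C f K → IsLarge p e B C κ F (finrank F K) → 1 + ε ≤ mahler f) ∧
    (∀ (p e E C : ℕ), p.Prime → 0 < e → ∀ f : ℤ[X], f.Monic → Irreducible f → 1 < mahler f →
      ∀ (F K : Type) [Field F] [NumberField F] [Field K] [NumberField K] [Algebra F K],
        ExtendsField C f K → HasFrobenius p (p ^ e) 1 F → RamificationAtMost p E F →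
        (finrank ℚ F : ℝ) ≤ C * cost p e E (finrank F K) * Real.log (mahler f)) ∧
    (∀ (p e E C κ : ℕ), p.Prime → 0 < e →
      (∀ X : ℝ, (Family p e E C κ ∩ {f | mahler f ≤ X}).Finite) ∧
      ((Family p e E C κ).Nonempty →
        ∃ f ∈ Family p e E C κ, ∀ g ∈ Family p e E C κ, mahler f ≤ mahler g)) ∧
    (∀ (F : Type) [Field F] [NumberField F] (p r B : ℕ), p.Prime → ∀ T : Finset (Ideal (𝓞 F)),
      (∀ P ∈ T, P ∈ (Ideal.span {(p : ℤ)}).primesOver (𝓞 F) ∧ P.inertiaDeg ℤ ≤ r) →
      finrank ℚ F ≤ B * ∑ P ∈ T, P.ramificationIdx ℤ * P.inertiaDeg ℤ →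
      HasFrobenius p (p ^ r.factorial) B F) ∧
    (∀ (F : Type) [Field F] [NumberField F] (p : ℕ), p.Prime → IsGalois ℚ F →
      ComparableRamification p 1 F) := by
  refine ⟨?_, ?_, ?_, ?_, ?_, ?_⟩
  · intro p e B C κ hp he
    obtain ⟨μ, hμ, h⟩ := part1 (e := e) B C κ hp he
    refine ⟨min μ 1, lt_min hμ one_pos, ?_⟩
    intro f hI hM hnd F K _ _ _ _ _ hK hF
    have hM0 : 0 < mahler f := one_pos.trans hM
    rcases monic_or hI with h1 | h1 | h1
    · have h2 := gap hM0 (h f h1 hI hM hnd F K hK hF)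
      have := min_le_left μ 1
      linarith
    · have h2 := h (-f) h1 (irr_neg hI) (by rwa [mahler_neg]) (nondeg_neg hnd) F K
        (extends_neg hK) hF
      rw [mahler_neg] at h2
      have h3 := gap hM0 h2
      have := min_le_left μ 1
      linarith
    · have := min_le_right μ 1
      linarith
  · intro p e B C κ s hp he
    obtain ⟨μ, hμ, h⟩ := part2 (e := e) B C κ s hp he
    refine ⟨min μ 1, lt_min hμ one_pos, ?_⟩
    intro f hI hM hs F K _ _ _ _ _ hK hF
    have hM0 : 0 < mahler f := one_pos.trans hM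
    rcases monic_or hI with h1 | h1 | h1
    · have h2 := gap hM0 (h f h1 hI hM hs F K hK hF)
      have := min_le_left μ 1
      linarith
    · have h2 := h (-f) h1 (irr_neg hI) (by rwa [mahler_neg])
        (by rwa [outside_neg]) F K (extends_neg hK) hF
      rw [mahler_neg] at h2
      have h3 := gap hM0 h2
      have := min_le_left μ 1
      linarith
    · have := min_le_right μ 1
      linarith
  · intro p e E C hp he f hP hI hM F K _ _ _ _ _ hK hF hE
    exact explicit hp he hP hI hM hK hF hE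
  · intro p e E C κ hp he
    refine ⟨family_finite E C κ hp he, ?_⟩
    rintro ⟨f0, hf0⟩
    obtain ⟨a, ha, hmin⟩ := Set.exists_min_image _ mahler (family_finite E C κ hp he (mahler f0))
      ⟨f0, hf0, le_refl (mahler f0)⟩
    refine ⟨a, ha.1, ?_⟩
    intro b hb
    rcases le_total (mahler b) (mahler f0) with h | h
    · exact hmin b ⟨hb, h⟩
    · exact ha.2.trans h
  · intro F _ _ p r B hp T hT hN
    exact Pool.Agent.Q262.RL.mass_of_res hp T hT hN
  · intro F _ _ p hp hG P hP Q hQ
    have := hP.1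
    have := hP.2
    have := hQ.1
    have := hQ.2
    rw [one_mul]
    exact (Ideal.ramificationIdx_eq_of_isGaloisGroup (Ideal.span {(p : ℤ)}) P Q Gal(F/ℚ)).le

end Pool.Agent.Results.MP_7ab245_nt.LargeSubfields
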