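import Pool.Agent.U865.SV.Final

/-!
# Lehmer's problem and the departure from normality

For a square integer matrix `A` let `M(A)` be the Mahler measure of its characteristic polynomial
`χ_A`; every monic integer polynomial is a `χ_A`.  Let `A^*` be the adjoint of `A` with respect to an
inner product of `ℝ ^ n`, chosen such that `B = A^* A` is an integer matrix too.  For the standard
inner product this is the matrix `B = Aᵀ A`, for every `A`.  (If `A` is normal, `M(B) = M(A) ^ 2`.)

1. There is an absolute `c > 0` such that `log M(A) ≥ c / (1 + D) ^ 3` if `χ_A` is irreducible,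
   `M(A) > 1` and `M(B) ≤ exp(D) M(A) ^ 2`.
2. For every monotone function `κ` there is `μ > 1` such that `M(A) = 1` or `M(A) ≥ μ` for all
   integer matrices `A` with `M(B) ≤ κ(M(A))`.

The size of `A` and the coefficients are arbitrary.  If `σ_j` are the singular values of `A` with
respect to the inner product, `M(B)` is the square of the product of the numbers `max(1, σ_j)`.

Proof.  Let `μ_j ≥ 0` be the eigenvalues of `B` and `O` the set of the `j` with `μ_j ≠ 0, 1`.  The
coefficient of `t ^ (n - |O|)` in `det (z B (B - 1) + t (z - A))` is an integer polynomial `G` in `z`.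
It is the product of `p = ∏_O μ_j (μ_j - 1)` and of the characteristic polynomial of a contraction.
Averaging over the columns one obtains that the mean of `log max(|χ_A|, |G|)` on the unit circle is at
most `log |p| + ∑_O log (1 + σ_j) ≤ (9 / 2) log M(B)`.  The zeros of `G` lie in the closed unit disc,
therefore `χ_A` does not divide `G`, and one can use Lehmer's bounds for pairs of integer polynomials
of bounded height.
-/

set_option autoImplicit false

namespace Pool.Agent.Results.MP_7ab245_nt.NonNormality

open Polynomial Matrix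

noncomputable section

/-- The Mahler measure of the characteristic polynomial of an integer matrix. -/
def charMeasure {n : ℕ} (A : Matrix (Fin n) (Fin n) ℤ) : ℝ :=
  (A.charpoly.map (Int.castRingHom ℂ)).mahlerMeasure

/-- `B = A^* A` for the adjoint `A^*` of `A` with respect to some inner product of `ℝ ^ n`: there is a
positive definite symmetric real matrix `H` (the Gram matrix) such that `H B = Aᵀ H A`. -/
def IsAdjointProduct {n : ℕ} (A B : Matrix (Fin n) (Fin n) ℤ) : Prop :=
  ∃ H : Matrix (Fin n) (Fin n) ℝ, H.PosDef ∧
    H * B.map (Int.cast : ℤ → ℝ) = (A.map (Int.cast : ℤ → ℝ))ᵀ * H * A.map (Int.cast : ℤ → ℝ)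

theorem result :
    (∃ c : ℝ, 0 < c ∧ ∀ (n : ℕ) (A B : Matrix (Fin n) (Fin n) ℤ) (D : ℝ), 0 ≤ D →
      IsAdjointProduct A B → charMeasure B ≤ Real.exp D * charMeasure A ^ 2 →
      Irreducible A.charpoly → 1 < charMeasure A → c / (1 + D) ^ 3 ≤ Real.log (charMeasure A)) ∧
    (∀ κ : ℝ → ℝ, Monotone κ → ∃ μ : ℝ, 1 < μ ∧ ∀ (n : ℕ) (A B : Matrix (Fin n) (Fin n) ℤ),
      IsAdjointProduct A B → charMeasure B ≤ κ (charMeasure A) →
      charMeasure A = 1 ∨ μ ≤ charMeasure A) ∧
    ∀ (n : ℕ) (A : Matrix (Fin n) (Fin n) ℤ), IsAdjointProduct A (Aᵀ * A) :=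
  ⟨Pool.Agent.U865.SV.dob, Pool.Agent.U865.SV.gap, fun _ A =>
    Pool.Agent.U865.SV.isAdjProd_transpose A⟩

end

end Pool.Agent.Results.MP_7ab245_nt.NonNormality
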