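import Mathlib
import Pool.Agent.U218.RA.Br

/-!
# A relative Dobrowolski theorem over composita of abelian extensions with extensions of finite exponent

Let `F` be a finite or infinite Galois extension of `ℚ` whose Galois group has exponent dividing `m`
(not abelian in general), for instance the compositum of all number fields of degree at most `d`, with
`m = lcm (1, …, d)`, and let `E = F (μ_∞) = F ℚ^ab` be its compositum with the field generated by all
roots of unity, that is (Kronecker–Weber) with the maximal abelian extension of `ℚ`.

* There is an absolute constant `C` such that, for every irreducible integer polynomial `f` of degree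
  `n` with `M(f) > 1` which has a factor of degree `D ≥ 1` over `E`,
  `M(f) ≥ min (2, exp (n / ((C m) ^ (26 m) D (1 + log D) ^ (4 m + 5))))`,
  and the minimum with `2` is not necessary if `f` is monic.
  In other words, an algebraic integer `α ≠ 0` of degree `D` over `F ℚ^ab` which is not a root of unity
  has Weil height at least `c_m / (D (1 + log D) ^ (4 m + 5))`.
* (Lehmer's inequality with a power saving, uniformly in `m`.)  For every `ε > 0` there are
  `c, κ > 0` such that `M(f) ≥ min (2, exp (κ n ^ (ε / 2)))` whenever `f` has a factor of positive degree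
  at most `n ^ (1 - ε)` over a field `E = F (μ_∞)` as above and `m log log 3n ≤ c log 3n`.  In
  particular `M(f) ≥ 2` for all such `f` of large degree.

For `m = 1` this is the theorem of Amoroso and Zannier on abelian extensions (relative Dobrowolski
theorem, with a different exponent); for `D = 1` it is property (B) of the fields `F ℚ^ab`
(Amoroso–David–Zannier).

Method.  Let `O` be the set of the conjugates of `α` over `F (μ_N)`, inside a large number field `M`,
with `N` minimal among all the twists of `α` by roots of unity for which the number of conjugates does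
not grow.  The energy inequality (the Vandermonde determinant of the proof of Dobrowolski's theorem,
in logarithmic form) is applied to one of two families.

(A) The orbits `O` and `(s_p)⁻¹ O`, `O ^ (p ^ m)` for many primes `p`, with the central Frobenius
elements `s_p = φ ^ m`.  If `p` divides `N` exactly once the congruences take place modulo a high power
of the radical of `(p)`, because the coefficients are also fixed by an element of small index in
the tame inertia group.
(B) The orbits `c ^ i O ^ p` or `γ ^ i O ^ (p ^ 2)`, `i < t`, for one prime `p` dividing `N`, where `c` and `γ` are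
central elements of the (tame or wild) inertia group at `p`; in the wild case the level of
`γ` is computed by means of the recursion for the levels of the `p`-th powers.
If the sets in (B) coincide up to a root of unity, the twist by a suitable root of unity makes them equal, and
then either `N` was not minimal (wild primes) or (A) can be used (tame primes).
-/

set_option autoImplicit false

universe u

open Polynomial

namespace Pool.Agent.Results.MP_7ab245_nt.RelativeDobrowolskiAbelian

/-- The Mahler measure of an integer polynomial. -/
noncomputable def M (f : ℤ[X]) : ℝ := (f.map (Int.castRingHom ℂ)).mahlerMeasure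

/-- `F` is a (finite or infinite) Galois extension of `ℚ`, and `σ ^ m = 1` for all `σ` in its Galois
group. -/
def Exponent (m : ℕ) (F : Type u) [Field F] [CharZero F] : Prop :=
  IsGalois ℚ F ∧ ∀ σ : F ≃ₐ[ℚ] F, σ ^ m = 1

/-- `f` has a factor of degree `D` over a field `E` generated by roots of unity over a field `F`
with `Exponent m F`. -/
def Factor (m : ℕ) (f : ℤ[X]) (D : ℕ) : Prop :=
  ∃ (F E : Type u) (_ : Field F) (_ : CharZero F) (_ : Field E) (_ : Algebra F E),
    Exponent m F ∧ IntermediateField.adjoin F {ζ : E | ∃ k : ℕ, 0 < k ∧ ζ ^ k = 1} = ⊤ ∧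
    ∃ g : E[X], g ∣ f.map (Int.castRingHom E) ∧ g.natDegree = D

theorem result :
    (∃ C : ℝ, 1 ≤ C ∧ ∀ m : ℕ, 0 < m → ∀ f : ℤ[X], Irreducible f → 1 < M f →
      ∀ D : ℕ, 0 < D → Factor.{u} m f D →
        (f.Monic → Real.exp (f.natDegree /
          ((C * m) ^ (26 * m) * D * (1 + Real.log D) ^ (4 * m + 5))) ≤ M f) ∧
        min 2 (Real.exp (f.natDegree /
          ((C * m) ^ (26 * m) * D * (1 + Real.log D) ^ (4 * m + 5)))) ≤ M f) ∧
    (∀ ε : ℝ, 0 < ε → ∃ c : ℝ, 0 < c ∧ ∃ κ : ℝ, 0 < κ ∧ ∀ m : ℕ, 0 < m →
      ∀ f : ℤ[X], Irreducible f → 1 < M f →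
      m * Real.log (Real.log (3 * f.natDegree)) ≤ c * Real.log (3 * f.natDegree) →
      ∀ D : ℕ, 0 < D → Factor.{u} m f D → (D : ℝ) ≤ (f.natDegree : ℝ) ^ (1 - ε) →
        min 2 (Real.exp (κ * (f.natDegree : ℝ) ^ (ε / 2))) ≤ M f) := by
  refine ⟨?_, fun ε hε => ?_⟩
  · obtain ⟨C, hC, h⟩ := Pool.Agent.U218.RA.final.{u}
    refine ⟨C, hC, ?_⟩
    rintro m hm f hf hM D hD ⟨F, E, _, _, _, _, hF, hE, g, hg, rfl⟩
    have : CharZero E := charZero_of_injective_algebraMap (algebraMap F E).injective
    obtain ⟨F', hF1, hF2, hF3⟩ := Pool.Agent.U218.RA.bridge hF.1 hF.2 hE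
    exact h m hm f hf hM E F' hF2 hF3 g hg hD
  · obtain ⟨c, hc, κ, hκ, h⟩ := Pool.Agent.U218.RA.power_saving.{u} ε hε
    refine ⟨c, hc, κ, hκ, ?_⟩
    rintro m hm f hf hM hmn D hD ⟨F, E, _, _, _, _, hF, hE, g, hg, rfl⟩ hDn
    have : CharZero E := charZero_of_injective_algebraMap (algebraMap F E).injective
    obtain ⟨F', hF1, hF2, hF3⟩ := Pool.Agent.U218.RA.bridge hF.1 hF.2 hE
    exact h m hm f hf hM hmn E F' hF2 hF3 g hg hD hDn

end Pool.Agent.Results.MP_7ab245_nt.RelativeDobrowolskiAbelian
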